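import Mathlib

/-!
# Products of four terms of an arithmetic progression that are heptagonal, 14-gonal, 37-gonal
-/

namespace Pool.Agent.Results.MP_8d002f_nt.PolygonalFourTerm

/-- The `r`-th `k`-gonal number `r ((k-2) r - (k-4)) / 2`, as a rational number. -/
def polygonal (k r : ℕ) : ℚ := (1 / 2) * (r : ℚ) * (((k : ℚ) - 2) * r - ((k : ℚ) - 4))

/-- For each `k ∈ {7, 14, 37}` some product of four consecutive terms of a primitive
arithmetic progression of positive integers is a `k`-gonal number. -/
theorem result : ∀ k : ℕ, k = 7 ∨ k = 14 ∨ k = 37 →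
    ∃ a d r : ℕ, 1 ≤ a ∧ 1 ≤ d ∧ 1 ≤ r ∧ Nat.gcd a d = 1 ∧
      (a : ℚ) * (a + d) * (a + 2 * d) * (a + 3 * d) = polygonal k r := by
  rintro k (rfl | rfl | rfl)
  · exact ⟨9, 8, 225, by norm_num, by norm_num, by norm_num, by norm_num,
      by norm_num [polygonal]⟩
  · exact ⟨129, 7, 7920, by norm_num, by norm_num, by norm_num, by norm_num,
      by norm_num [polygonal]⟩
  · exact ⟨69, 748, 107985, by norm_num, by norm_num, by norm_num, by norm_num,
      by norm_num [polygonal]⟩

end Pool.Agent.Results.MP_8d002f_nt.PolygonalFourTerm
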